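import Pool.Agent.TH869.EVF.Fin1

/-!
# Torsion in the class groups of pure fields and of Dickson fields

For odd `n` every pure field of degree `n`, and for `n` prime to `6` every field of degree `n`
generated by a solution of `D_n(α, a) = b`, `a` and `b` integers and `D_n` the Dickson polynomial,
satisfies, for all `l`, a bound for the number of ideal classes killed by `l` which is better than
the bound by the class number by a power of the discriminant.
-/

set_option autoImplicit false

open NumberField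

namespace Pool.Agent.Results.MP_695920_nt.DicksonFields

/-- For every odd `n ≥ 3` and `ε > 0` there is `C > 0` such that for every number field `K` of
degree `n`, every `α` with `K = ℚ(α)` and every `l ≥ 1`, with `D = |disc K|`:
(1) if `α ^ n = b` with an integer `b`, then at most
`C l ^ n log (|b| + 2) D ^ (1 / 2 - 1 / (l n (n - 1)) + ε)` ideal classes of `K` are killed by `l`;
(2) if `3` does not divide `n` and `D_n(α, a) = b` with integers `a, b`, `b ^ 2 ≠ 4 a ^ n`, then at
most `C l ^ n log (|a| + |b| + 2) D ^ (1 / 2 - 1 / (l n (n - 1)) + ε)` ideal classes of `K` are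
killed by `l`. Here `D_n(x, a) = Polynomial.dickson 1 a n` is the Dickson polynomial of the first
kind: `D_n(u + a / u, a) = u ^ n + (a / u) ^ n`. -/
theorem result (n : ℕ) (hn : 3 ≤ n) (hodd : Odd n) (ε : ℝ) (hε : 0 < ε) :
    ∃ C : ℝ, 0 < C ∧ ∀ (K : Type) [Field K] [NumberField K], Module.finrank ℚ K = n →
    ∀ α : K, IntermediateField.adjoin ℚ {α} = ⊤ →
    (∀ b : ℤ, α ^ n = b → ∀ l : ℕ, 1 ≤ l →
      (Nat.card {c : ClassGroup (𝓞 K) // c ^ l = 1} : ℝ) ≤
        C * l ^ n * Real.log (|(b : ℝ)| + 2) *
          |(discr K : ℝ)| ^ (1 / 2 - 1 / (l * n * (n - 1)) + ε : ℝ)) ∧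
    (¬ 3 ∣ n → ∀ a b : ℤ, b ^ 2 ≠ 4 * a ^ n → (Polynomial.dickson 1 (a : K) n).eval α = b →
      ∀ l : ℕ, 1 ≤ l →
      (Nat.card {c : ClassGroup (𝓞 K) // c ^ l = 1} : ℝ) ≤
        C * l ^ n * Real.log (|(a : ℝ)| + |(b : ℝ)| + 2) *
          |(discr K : ℝ)| ^ (1 / 2 - 1 / (l * n * (n - 1)) + ε : ℝ)) := by
  obtain ⟨C, hC0, hC⟩ := Pool.Agent.TH869.EVF.dickson_torsion n hn hodd ε hε
  refine ⟨C, hC0, fun K _ _ hK α hα => ⟨?_, ?_⟩⟩
  · intro b hb l hl
    have hb0 : b ≠ 0 := by
      rintro rfl
      have h1 : α = 0 := by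
        rw [Int.cast_zero] at hb
        exact (pow_eq_zero_iff (by omega)).mp hb
      rw [h1, IntermediateField.adjoin_zero] at hα
      have h2 : Module.finrank ℚ K = 1 := by
        rw [← IntermediateField.finrank_top' (F := ℚ) (E := K), ← hα]
        exact IntermediateField.finrank_bot
      omega
    have h1 := Pool.Agent.TH869.EVF.dickson_eval α (0 : K) n
    rw [mul_zero, add_zero, zero_pow (by omega), add_zero, hb] at h1
    have h2 := hC l hl 0 b (Or.inl rfl) (by
      rw [zero_pow (by omega), mul_zero]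
      exact pow_ne_zero 2 hb0) K hK α hα (by rw [Int.cast_zero]; exact h1)
    rwa [Int.cast_zero, abs_zero, zero_add] at h2
  · intro h3 a b hab h0 l hl
    exact hC l hl a b (Or.inr h3) hab K hK α hα h0

end Pool.Agent.Results.MP_695920_nt.DicksonFields
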