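import Pool.Agent.TH847.LG.Fin

set_option autoImplicit false

open scoped NumberField

namespace Pool.Agent.Results.MP_695920_nt.LogSavingAllDegrees

/-- The small primes, for a number field `K` of degree `n` and an integer `ℓ`, that are norms:
the primes `p` with `(2 (150 p)^ℓ)^(n (n - 1)) < |disc K|` such that some ideal of the ring of
integers of `K` has norm `p`. -/
def smallNorms (K : Type) [Field K] [NumberField K] (n ℓ : ℕ) : Set ℕ :=
  {p : ℕ | p.Prime ∧ (2 * (150 * p) ^ ℓ) ^ (n * (n - 1)) < (NumberField.discr K).natAbs ∧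
    ∃ P : Ideal (𝓞 K), Ideal.absNorm P = p}

/-- For every `n ≥ 2` there is a constant `C` such that for every `ℓ ≥ 1` and every number field `K`
of degree `n`, with `D = |disc K|`:

* if `ℓ` is coprime to `n`, at most `C ℓ^n √D / log D` ideal classes of `K` are killed by `ℓ`, and
  at most `C ℓ^n (log (k + 2))^n / (k + 1)` times `√D / log D`, where `k` is the number of small
  primes that are norms;
* in all cases at most `C ℓ^n (log (log D + 2))^n √D / log D` ideal classes of `K` are killed by
  `ℓ`, and at most `C ℓ^n (log (log D + 2))^n (log (k' + 2))^n / (k' + 1)` times `√D / log D`, where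
  `k'` is the number of small primes that are norms and do not divide `D`. -/
theorem result : ∀ n : ℕ, 2 ≤ n → ∃ C : ℝ, 0 < C ∧ ∀ ℓ : ℕ, 1 ≤ ℓ →
    ∀ (K : Type) [Field K] [NumberField K], Module.finrank ℚ K = n →
      (Nat.Coprime ℓ n →
        (Nat.card {x : ClassGroup (𝓞 K) // x ^ ℓ = 1} : ℝ) ≤
          C * ℓ ^ n * (√|(NumberField.discr K : ℝ)| / Real.log |(NumberField.discr K : ℝ)|) ∧
        (Nat.card {x : ClassGroup (𝓞 K) // x ^ ℓ = 1} : ℝ) ≤
          C * ℓ ^ n * ((Real.log ((smallNorms K n ℓ).ncard + 2)) ^ n / ((smallNorms K n ℓ).ncard + 1)) *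
            (√|(NumberField.discr K : ℝ)| / Real.log |(NumberField.discr K : ℝ)|)) ∧
      (Nat.card {x : ClassGroup (𝓞 K) // x ^ ℓ = 1} : ℝ) ≤
        C * ℓ ^ n * (Real.log (Real.log |(NumberField.discr K : ℝ)| + 2)) ^ n *
          (√|(NumberField.discr K : ℝ)| / Real.log |(NumberField.discr K : ℝ)|) ∧
      (Nat.card {x : ClassGroup (𝓞 K) // x ^ ℓ = 1} : ℝ) ≤
        C * ℓ ^ n * (Real.log (Real.log |(NumberField.discr K : ℝ)| + 2)) ^ n *
          ((Real.log ({p ∈ smallNorms K n ℓ | ¬ p ∣ (NumberField.discr K).natAbs}.ncard + 2)) ^ n /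
            ({p ∈ smallNorms K n ℓ | ¬ p ∣ (NumberField.discr K).natAbs}.ncard + 1)) *
          (√|(NumberField.discr K : ℝ)| / Real.log |(NumberField.discr K : ℝ)|) := by
  classical
  intro n hn2
  obtain ⟨C0, hC00, hC'⟩ := Pool.Agent.TH847.LG.main_n n hn2
  set A : ℝ := 2 * (2 * n : ℝ) ^ n with hA
  have hnr : (2 : ℝ) ≤ n := by exact_mod_cast hn2
  have hA1 : 1 ≤ A := by
    have : (1 : ℝ) ≤ (2 * n : ℝ) ^ n := one_le_pow₀ (by linarith)
    rw [hA]
    linarith
  refine ⟨C0 * 2 ^ n * A, by positivity, ?_⟩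
  intro l hl K _ _ hn
  have hC := hC' l hl
  have hlr : (1 : ℝ) ≤ l := by exact_mod_cast hl
  have hre : C0 * 2 ^ n * A * (l : ℝ) ^ n = C0 * l ^ n * 2 ^ n * A := by ring
  rw [hre]
  set C : ℝ := C0 * l ^ n with hCdef
  have hC0 : 0 < C := by positivity
  have hD : |(NumberField.discr K : ℝ)| = ((NumberField.discr K).natAbs : ℝ) := by
    rw [Nat.cast_natAbs]
    push_cast
    rfl
  rw [hD]
  set D := (NumberField.discr K).natAbs with hDdef
  set T := Nat.card {x : ClassGroup (𝓞 K) // x ^ l = 1} with hT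
  have hD2 : 2 < D := by
    have := NumberField.abs_discr_gt_two (K := K) (by rw [hn]; omega)
    rw [Int.abs_eq_natAbs] at this
    exact_mod_cast this
  have hDr : (2 : ℝ) < D := by exact_mod_cast hD2
  have hlog : 0 < Real.log D := Real.log_pos (by linarith)
  have hX : 0 < √(D : ℝ) / Real.log D := by
    have : 0 < √(D : ℝ) := Real.sqrt_pos.mpr (by linarith)
    positivity
  -- elementary bound
  have hel : ∀ k : ℕ, (Real.log ((k : ℝ) + 2)) ^ n / (k + 1) ≤ A := by
    intro k
    have hk0 : (0 : ℝ) ≤ k := by positivity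
    rw [div_le_iff₀ (by positivity)]
    have h1 := Pool.Agent.TH847.LG.log_pow_le (n := n) (by omega) (t := (k : ℝ) + 2) (by linarith)
    have h2 : √((k : ℝ) + 2) ≤ (k : ℝ) + 2 := by
      rw [Real.sqrt_le_left (by linarith)]
      nlinarith
    have h0 : 0 ≤ Real.log ((k : ℝ) + 2) := Real.log_nonneg (by linarith)
    calc (Real.log ((k : ℝ) + 2)) ^ n ≤ (1 + Real.log ((k : ℝ) + 2)) ^ n := by
          gcongr
          linarith
      _ ≤ (2 * n : ℝ) ^ n * √((k : ℝ) + 2) := h1
      _ ≤ (2 * n : ℝ) ^ n * (2 * ((k : ℝ) + 1)) := by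
          gcongr
          linarith
      _ = _ := by rw [hA]; ring
  have hle : ∀ p : ℕ, p ≤ (2 * (150 * p) ^ l) ^ (n * (n - 1)) := fun p =>
    Pool.Agent.TH847.LG.le_Phi hn2 hl p
  constructor
  · intro hcop
    have h3 := hC K hn ∅ (by simp) (by
      intro p _ q _ hp hq hpq Q R J hQ _ hJ z hz
      refine Pool.Agent.TH847.LG.gen_top hn hcop hp hq hpq z ?_
      rw [← Ideal.absNorm_span_singleton, hz, map_mul, map_pow, map_pow, hQ, hJ, mul_pow])
    have hk : (smallNorms K n l).ncard = (Pool.Agent.TH847.LG.GG K n l D ∅).card := by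
      rw [← Set.ncard_coe_finset]
      congr 1
      ext p
      rw [Finset.mem_coe, Pool.Agent.TH847.LG.GG, Finset.mem_filter,
        Pool.Agent.TH847.LS.mem_TT]
      constructor
      · rintro ⟨a, b, c⟩
        refine ⟨⟨⟨?_, a⟩, c⟩, b, by simp⟩
        have := hle p
        omega
      · rintro ⟨⟨⟨_, a⟩, c⟩, b, _⟩
        exact ⟨a, b, c⟩
    rw [hk]
    rw [← hDdef] at h3
    set k := (Pool.Agent.TH847.LG.GG K n l D ∅).card with hkdef
    have hk0 : (0 : ℝ) ≤ k := by positivity
    have hlk : 0 < Real.log ((k : ℝ) + 2) := Real.log_pos (by linarith)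
    have hl2 : (Real.log ((((∅ : Finset ℕ).card : ℕ) : ℝ) + 2)) ^ n ≤ 1 := by
      apply pow_le_one₀ (Real.log_nonneg (by simp))
      have := Real.log_two_lt_d9
      simp only [Finset.card_empty, Nat.cast_zero, zero_add]
      linarith
    have h4 : (T : ℝ) ≤ C * ((Real.log (k + 2)) ^ n / (k + 1)) * (√(D : ℝ) / Real.log D) := by
      have e : C * ((Real.log (k + 2)) ^ n / (k + 1)) * (√(D : ℝ) / Real.log D) =
          C * (Real.log (k + 2)) ^ n * √(D : ℝ) / ((k + 1) * Real.log D) := by
        field_simp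
      rw [e, le_div_iff₀ (by positivity), ← mul_assoc]
      refine h3.trans ?_
      calc C * (Real.log ((k : ℝ) + 2)) ^ n *
            (Real.log ((((∅ : Finset ℕ).card : ℕ) : ℝ) + 2)) ^ n * √(D : ℝ)
          ≤ C * (Real.log ((k : ℝ) + 2)) ^ n * 1 * √(D : ℝ) := by gcongr
        _ = _ := by ring
    have h2n : (1 : ℝ) ≤ 2 ^ n := one_le_pow₀ (by norm_num)
    have hq0 : 0 ≤ (Real.log ((k : ℝ) + 2)) ^ n / (k + 1) := by positivity
    constructor
    · refine h4.trans ?_
      calc C * ((Real.log (k + 2)) ^ n / (k + 1)) * (√(D : ℝ) / Real.log D)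
          ≤ C * A * (√(D : ℝ) / Real.log D) := by
            have := hel k
            gcongr
        _ ≤ C * 2 ^ n * A * (√(D : ℝ) / Real.log D) := by
            refine mul_le_mul_of_nonneg_right ?_ hX.le
            nlinarith [mul_pos hC0 (show 0 < A by linarith)]
    · refine h4.trans ?_
      refine mul_le_mul_of_nonneg_right (mul_le_mul_of_nonneg_right ?_ hq0) hX.le
      calc C = C * 1 * 1 := by ring
        _ ≤ C * 2 ^ n * A := by gcongr
  · have hD0 : D ≠ 0 := by omega
    have h3 := hC K hn D.primeFactors (fun p hp => Nat.prime_of_mem_primeFactors hp) (by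
      intro p _ q hqB hp hq hpq Q R J hQ hQR hJ z hz
      refine Pool.Agent.TH847.LG.gen_top_unram z Q R J hq hp hpq hl hQ hQR ?_ hJ hz
      intro hdvd
      have h5 := Pool.Agent.TH847.LG.dvd_discr_of_dvd hq hQ hQR hdvd
      exact hqB (Nat.mem_primeFactors.mpr ⟨hq, h5, hD0⟩))
    have hk : ({p ∈ smallNorms K n l | ¬ p ∣ D}).ncard =
        (Pool.Agent.TH847.LG.GG K n l D D.primeFactors).card := by
      rw [← Set.ncard_coe_finset]
      congr 1
      ext p
      rw [Finset.mem_coe, Pool.Agent.TH847.LG.GG, Finset.mem_filter,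
        Pool.Agent.TH847.LS.mem_TT, Nat.mem_primeFactors]
      constructor
      · rintro ⟨⟨a, b, c⟩, d⟩
        refine ⟨⟨⟨?_, a⟩, c⟩, b, fun h => d h.2.1⟩
        have := hle p
        omega
      · rintro ⟨⟨⟨_, a⟩, c⟩, b, d⟩
        exact ⟨⟨a, b, c⟩, fun h => d ⟨a, h, hD0⟩⟩
    rw [hk]
    rw [← hDdef] at h3
    set k := (Pool.Agent.TH847.LG.GG K n l D D.primeFactors).card with hkdef
    have hk0 : (0 : ℝ) ≤ k := by positivity
    have hlk : 0 < Real.log ((k : ℝ) + 2) := Real.log_pos (by linarith)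
    have hb0 : (0 : ℝ) ≤ D.primeFactors.card := by positivity
    -- number of prime factors
    have hom : (D.primeFactors.card : ℝ) + 2 ≤ (Real.log D + 2) ^ 2 := by
      have h5 : 2 ^ D.primeFactors.card ≤ D := by
        calc 2 ^ D.primeFactors.card ≤ ∏ p ∈ D.primeFactors, p := by
              refine Finset.pow_card_le_prod _ _ _ fun p hp => ?_
              exact (Nat.prime_of_mem_primeFactors hp).two_le
          _ ≤ D := Nat.le_of_dvd (by omega) (Nat.prod_primeFactors_dvd D)
      have h6 : (2 : ℝ) ^ D.primeFactors.card ≤ D := by exact_mod_cast h5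
      have h7 := Real.log_le_log (by positivity) h6
      rw [Real.log_pow] at h7
      have h8 := Real.log_two_gt_d9
      nlinarith
    have hlb : Real.log ((D.primeFactors.card : ℝ) + 2) ≤ 2 * Real.log (Real.log D + 2) := by
      have h5 := Real.log_le_log (by positivity) hom
      rw [Real.log_pow] at h5
      push_cast at h5
      exact h5
    have hlb0 : 0 < Real.log ((D.primeFactors.card : ℝ) + 2) := Real.log_pos (by linarith)
    have hLL : 0 < Real.log (Real.log D + 2) := Real.log_pos (by linarith)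
    have h4 : (T : ℝ) ≤ C * 2 ^ n * (Real.log (Real.log D + 2)) ^ n *
        ((Real.log (k + 2)) ^ n / (k + 1)) * (√(D : ℝ) / Real.log D) := by
      have e : C * 2 ^ n * (Real.log (Real.log D + 2)) ^ n *
          ((Real.log (k + 2)) ^ n / (k + 1)) * (√(D : ℝ) / Real.log D) =
          C * (Real.log (k + 2)) ^ n * (2 * Real.log (Real.log D + 2)) ^ n * √(D : ℝ) /
            ((k + 1) * Real.log D) := by
        rw [mul_pow]
        field_simp
      rw [e, le_div_iff₀ (by positivity), ← mul_assoc]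
      refine h3.trans ?_
      gcongr
    have hq0 : 0 ≤ (Real.log ((k : ℝ) + 2)) ^ n / (k + 1) := by positivity
    have hM0 : 0 < C * 2 ^ n * (Real.log (Real.log D + 2)) ^ n := by positivity
    constructor
    · refine h4.trans ?_
      calc C * 2 ^ n * (Real.log (Real.log D + 2)) ^ n *
            ((Real.log (k + 2)) ^ n / (k + 1)) * (√(D : ℝ) / Real.log D)
          ≤ C * 2 ^ n * (Real.log (Real.log D + 2)) ^ n * A * (√(D : ℝ) / Real.log D) := by
            have := hel k
            gcongr
        _ = _ := by ring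
    · refine h4.trans ?_
      refine mul_le_mul_of_nonneg_right (mul_le_mul_of_nonneg_right ?_ hq0) hX.le
      refine mul_le_mul_of_nonneg_right ?_ (by positivity)
      calc C * 2 ^ n = C * 2 ^ n * 1 := by ring
        _ ≤ C * 2 ^ n * A := by gcongr

end Pool.Agent.Results.MP_695920_nt.LogSavingAllDegrees
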