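import Pool.Agent.TH869.EVF.Fin4

set_option autoImplicit false

/-!
# Class group torsion of the quadratic fields in a polynomial family

Let `f` be an integer polynomial which is not a constant times a square of a polynomial, and let
`ε > 0`.  Then there are `c > 0` and `C` such that for every `N ≥ 1` and all `1 ≤ n ≤ N` outside a
set of at most `C N ^ (1 - c)` integers, `f n` is not a perfect square and the quadratic field
`K = ℚ(√(f n))` satisfies, for every `l ≥ 1`,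

`|Cl(K)[l]| ≤ C l² |D_K| ^ (1/2 - 1/(2 max (l, deg f)) + ε)`.
-/

namespace Pool.Agent.Results.MP_695920_nt.PolynomialFamilies

open Polynomial NumberField

theorem result (f : ℤ[X])
    (hf : ∀ (c : ℚ) (g : ℚ[X]), f.map (Int.castRingHom ℚ) ≠ C c * g ^ 2) (ε : ℝ) (hε : 0 < ε) :
    ∃ c C : ℝ, 0 < c ∧ 0 < C ∧ ∀ N : ℕ, 1 ≤ N → ∃ E : Finset ℕ,
      (E.card : ℝ) ≤ C * (N : ℝ) ^ (1 - c) ∧
      ∀ n : ℕ, 1 ≤ n → n ≤ N → n ∉ E → ¬ IsSquare (f.eval (n : ℤ)) ∧
        ∀ (K : Type) [Field K] [NumberField K], Module.finrank ℚ K = 2 →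
          (∃ x : K, x ^ 2 = ((f.eval (n : ℤ) : ℤ) : K)) → ∀ l : ℕ, 1 ≤ l →
            (Nat.card {a : ClassGroup (𝓞 K) // a ^ l = 1} : ℝ) ≤
              C * l ^ 2 *
                |(discr K : ℝ)| ^ (1 / 2 - 1 / (2 * (max l f.natDegree : ℕ)) + ε : ℝ) :=
  Pool.Agent.TH869.EVF.poly_torsion_disc f hf ε hε

end Pool.Agent.Results.MP_695920_nt.PolynomialFamilies
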