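import Pool.Agent.H568.GR.All

/-!
# Class group torsion of quadratic fields: all smooth discriminants

For every `l` and `ε > 0` there is `C` such that every quadratic field, real or imaginary, whose
discriminant has no prime factor larger than `D ^ (1/(2l) - ε)`, `D` its absolute value, has at most
`C * D ^ (1/2 - 1/(2l) + ε)` ideal classes killed by `l`. No exceptions, no hypothesis on L-functions.

Method: character sums modulo `D` of length `N = D ^ (1/(2l) - ε/2)` have a power saving, by van
der Corput differencing with shifts divisible by factors of the modulus and the Weil bound for complete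
sums modulo a small divisor; with Siegel's theorem there are `N ^ (1 - ε)` ideals of norm at most `N`
composed of different split primes, and their classes are different modulo the `l`-torsion
(Ellenberg-Venkatesh). By helper568 with helpers 615, 111, 633, 89, 408, 134, 897, 318, 106, 16, 360,
521, 621 (see Pool/Agent/H568/GR/All.lean).
-/

set_option autoImplicit false

open NumberField

/-- For `l ≥ 1` and `ε > 0` there is `C` such that every quadratic field whose discriminant has no
prime factor `p > D ^ (1/(2l) - ε)`, `D` its absolute value, has at most `C * D ^ (1/2 - 1/(2l) + ε)`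
ideal classes killed by `l`. -/
theorem Pool.Agent.Results.MP_695920_nt.SmoothDiscriminants.result
    (l : ℕ) (ε : ℝ) (hl : 1 ≤ l) (hε : 0 < ε) :
    ∃ C : ℝ, ∀ (K : Type) [Field K] [NumberField K], Module.finrank ℚ K = 2 →
      (∀ p : ℕ, p.Prime → (p : ℤ) ∣ discr K →
        (p : ℝ) ≤ |(discr K : ℝ)| ^ (1 / (2 * l) - ε : ℝ)) →
      (Nat.card {c : ClassGroup (𝓞 K) // c ^ l = 1} : ℝ) ≤
        C * |(discr K : ℝ)| ^ (1 / 2 - 1 / (2 * l) + ε : ℝ) :=
  Pool.Agent.H568.GR.main l ε hl hε
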